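import Pool.Agent.Helper54.SR.Defs

/-!
# SR-D12: valuations of the function given by two certificates
-/

set_option autoImplicit false
set_option linter.unusedVariables false
open scoped Pointwise
open Polynomial Pool.Agent.Helper54.PW

namespace Pool.Agent.Helper54.SR

section aux

variable {R F : Type} [CommRing R] [Field F]

/-- the ideal `I` generates the principal ideal of `π` in the valuation ring `A` -/
def H6PG (A : ValuationSubring F) (J : R →+* F) (I : Ideal R) (π : F) : Prop :=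
  π ≠ 0 ∧ (∃ z ∈ I, J z = π) ∧ ∀ z ∈ I, J z / π ∈ A

theorem h6_pg_of_gen (A : ValuationSubring F) (J : R →+* F) (hJ : ∀ r, J r ∈ A) (a b : R) (π : F)
    (h : Gen A π (J a) (J b)) : H6PG A J (Ideal.span {a, b}) π := by
  obtain ⟨h0, h1, h2, h3⟩ := h
  refine ⟨h1, ?_, ?_⟩
  · rcases h0 with h0 | h0
    · exact ⟨a, Ideal.subset_span (by simp), h0.symm⟩
    · exact ⟨b, Ideal.subset_span (by simp), h0.symm⟩
  · intro z hz
    obtain ⟨s, t, hst⟩ := Ideal.mem_span_pair.1 hz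
    have : J z / π = J s * (J a / π) + J t * (J b / π) := by
      rw [← hst, map_add, map_mul, map_mul]; ring
    rw [this]
    exact A.add_mem _ _ (A.mul_mem _ _ (hJ s) h2) (A.mul_mem _ _ (hJ t) h3)

theorem h6_pg_single (A : ValuationSubring F) (J : R →+* F) (hJ : ∀ r, J r ∈ A) (a : R)
    (h : J a ≠ 0) : H6PG A J (Ideal.span {a}) (J a) := by
  refine ⟨h, ⟨a, Ideal.subset_span (by simp), rfl⟩, ?_⟩
  intro z hz
  obtain ⟨s, hs⟩ := Ideal.mem_span_singleton'.1 hz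
  have : J z / J a = J s := by
    rw [← hs, map_mul]; field_simp
  rw [this]; exact hJ s

theorem h6_pg_mul (A : ValuationSubring F) (J : R →+* F) (I I' : Ideal R) (π π' : F)
    (h : H6PG A J I π) (h' : H6PG A J I' π') : H6PG A J (I * I') (π * π') := by
  obtain ⟨h1, ⟨z, hz, hzπ⟩, h3⟩ := h
  obtain ⟨h1', ⟨z', hz', hzπ'⟩, h3'⟩ := h'
  refine ⟨mul_ne_zero h1 h1', ⟨z * z', Ideal.mul_mem_mul hz hz', by rw [map_mul, hzπ, hzπ']⟩, ?_⟩
  intro w hw
  refine Submodule.mul_induction_on hw ?_ ?_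
  · intro a ha b hb
    have : J (a * b) / (π * π') = (J a / π) * (J b / π') := by
      rw [map_mul]; field_simp
    rw [this]
    exact A.mul_mem _ _ (h3 a ha) (h3' b hb)
  · intro a b ha hb
    rw [map_add, add_div]
    exact A.add_mem _ _ ha hb

theorem h6_un_of_pg (A : ValuationSubring F) (J : R →+* F) (I : Ideal R) (π π' : F)
    (h : H6PG A J I π) (h' : H6PG A J I π') : Un A (π / π') := by
  obtain ⟨h1, ⟨z, hz, hzπ⟩, h3⟩ := h
  obtain ⟨h1', ⟨z', hz', hzπ'⟩, h3'⟩ := h'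
  refine ⟨div_ne_zero h1 h1', ?_, ?_⟩
  · have := h3' z hz
    rwa [hzπ] at this
  · have := h3 z' hz'
    rw [hzπ'] at this
    rwa [inv_div]

theorem h6_exists_gen (A : ValuationSubring F) (a b : F) (ha : a ≠ 0) : ∃ π, Gen A π a b := by
  by_cases hb : b / a ∈ A
  · exact ⟨a, Or.inl rfl, ha, by rw [div_self ha]; exact A.one_mem, hb⟩
  · have hb0 : b ≠ 0 := by
      rintro rfl
      exact hb (by rw [zero_div]; exact A.zero_mem)
    refine ⟨b, Or.inr rfl, hb0, ?_, by rw [div_self hb0]; exact A.one_mem⟩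
    have := (A.mem_or_inv_mem (b / a)).resolve_left hb
    rwa [inv_div] at this

/-- the valuation content of one certificate -/
theorem h6_cert_one {ℓ : ℕ} (A : ValuationSubring F) (J : R →+* F) (hJ : ∀ r, J r ∈ A)
    (hℓ0 : 0 < ℓ) (H₁ H₂ H₁₂ a b c d : R) (h0 : J H₁ ≠ 0) (ha : J a ≠ 0)
    (hpow : H₁₂ ^ ℓ = H₂ * H₁ ^ (ℓ - 1))
    (hid : Ideal.span {H₁, H₂} * Ideal.span {a, b} = Ideal.span {a} * Ideal.span {c, d})
    (πu π : F) (hπu : Gen A πu (J a) (J b)) (hπ : Gen A π (J c) (J d)) :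
    ∃ x : F, x ≠ 0 ∧ Un A (J H₁ * x ^ ℓ * πu / (J a * π)) := by
  obtain ⟨m, rfl⟩ : ∃ m, ℓ = m + 1 := ⟨ℓ - 1, by omega⟩
  set h : F := J H₁₂ / J H₁ with hh
  have hH2 : J H₂ = J H₁ * h ^ (m + 1) := by
    have h1 : J H₁₂ ^ (m + 1) = J H₂ * J H₁ ^ m := by
      rw [← map_pow, hpow, map_mul, map_pow]; simp
    rw [hh, div_pow, h1]
    field_simp
    ring
  obtain ⟨x, hx, hgen⟩ : ∃ x : F, x ≠ 0 ∧ Gen A (J H₁ * x ^ (m + 1)) (J H₁) (J H₂) := by
    by_cases hA : h ∈ A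
    · refine ⟨1, one_ne_zero, ?_⟩
      rw [one_pow, mul_one]
      refine ⟨Or.inl rfl, h0, by rw [div_self h0]; exact A.one_mem, ?_⟩
      rw [hH2, mul_div_cancel_left₀ _ h0]
      exact pow_mem hA _
    · have hne : h ≠ 0 := by
        intro h'
        exact hA (by rw [h']; exact A.zero_mem)
      have hinv : h⁻¹ ∈ A := (A.mem_or_inv_mem h).resolve_left hA
      refine ⟨h, hne, Or.inr hH2.symm, mul_ne_zero h0 (pow_ne_zero _ hne), ?_, ?_⟩
      · have : J H₁ / (J H₁ * h ^ (m + 1)) = h⁻¹ ^ (m + 1) := by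
          rw [inv_pow]; field_simp
        rw [this]
        exact pow_mem hinv _
      · rw [hH2, div_self (mul_ne_zero h0 (pow_ne_zero _ hne))]
        exact A.one_mem
  refine ⟨x, hx, ?_⟩
  have p1 := h6_pg_mul A J _ _ _ _ (h6_pg_of_gen A J hJ H₁ H₂ _ hgen)
    (h6_pg_of_gen A J hJ a b _ hπu)
  have p2 := h6_pg_mul A J _ _ _ _ (h6_pg_single A J hJ a ha) (h6_pg_of_gen A J hJ c d _ hπ)
  rw [hid] at p1
  exact h6_un_of_pg A J _ _ _ p1 p2

end aux

theorem h6_un_div {F : Type} [Field F] {A : ValuationSubring F} {x y : F} (hx : Un A x)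
    (hy : Un A y) : Un A (x / y) := by
  obtain ⟨h1, h2, h3⟩ := hx
  obtain ⟨h1', h2', h3'⟩ := hy
  refine ⟨div_ne_zero h1 h1', ?_, ?_⟩
  · rw [div_eq_mul_inv]; exact A.mul_mem _ _ h2 h3'
  · rw [inv_div, div_eq_mul_inv]; exact A.mul_mem _ _ h2' h3

/-- SR-D12 -/
theorem cert_valuation {ℓ : ℕ} (hℓ0 : 0 < ℓ) {k F : Type} [Field k] [Field F] (f : k[X][X])
    (hf : f.Monic) (j : k[X][X] →+* F) (hj : ∀ B, j B = 0 ↔ f ∣ B) (c₁ η₁ c₂ η₂ u y : k)
    (h₁ : Cert ℓ (RingHom.id k) f c₁ η₁ u y) (h₂ : Cert ℓ (RingHom.id k) f c₂ η₂ u y)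
    (hn : 0 < f.natDegree) :
    ∃ g : F, g ≠ 0 ∧ ∀ A : ValuationSubring F, (∀ B, j B ∈ A) → ∃ x π₁ π₂ : F, x ≠ 0 ∧
      Gen A π₁ (j (C (X - C c₁))) (j (X - C (C η₁))) ∧
      Gen A π₂ (j (C (X - C c₂))) (j (X - C (C η₂))) ∧ Un A (g * x ^ ℓ * π₂ / π₁) := by
  have hfS : fS (RingHom.id k) f = f := by
    simp [fS]
  obtain ⟨H₁, H₂, H₁₂, hdeg, hcont, hpow, hid⟩ := h₁
  obtain ⟨H₁', H₂', H₁₂', hdeg', hcont', hpow', hid'⟩ := h₂
  have hnz : ∀ H : k[X][X], H.natDegree < f.natDegree →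
      Ideal.span (Set.range fun q : ℕ × ℕ => (H.coeff q.1).coeff q.2) = ⊤ → j H ≠ 0 := by
    intro H hd hc h0
    have hdvd := (hj H).1 h0
    have hH0 : H = 0 := Polynomial.eq_zero_of_dvd_of_natDegree_lt hdvd hd
    have : (Ideal.span (Set.range fun q : ℕ × ℕ => (H.coeff q.1).coeff q.2) : Ideal k) = ⊥ := by
      rw [Ideal.span_eq_bot]
      rintro x ⟨q, rfl⟩
      simp [hH0]
    rw [this] at hc
    exact bot_ne_top hc
  have hlin : ∀ c : k, j (C (X - C c)) ≠ 0 := by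
    intro c h0
    have hdvd := (hj _).1 h0
    have := Polynomial.eq_zero_of_dvd_of_natDegree_lt hdvd (by rw [natDegree_C]; exact hn)
    rw [Polynomial.C_eq_zero] at this
    exact Polynomial.X_sub_C_ne_zero c this
  let J : AdjoinRoot (fS (RingHom.id k) f) →+* F :=
    Ideal.Quotient.lift (Ideal.span {fS (RingHom.id k) f}) j (by
      intro a ha
      have := Ideal.mem_span_singleton.1 ha
      rw [hfS] at this
      exact (hj a).2 this)
  have hJ : ∀ B, J (AdjoinRoot.mk (fS (RingHom.id k) f) B) = j B := fun B => rfl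
  refine ⟨j H₁ / j H₁', div_ne_zero (hnz _ hdeg hcont) (hnz _ hdeg' hcont'), ?_⟩
  intro A hA
  have hJA : ∀ r, J r ∈ A := by
    intro r
    obtain ⟨B, rfl⟩ := AdjoinRoot.mk_surjective r
    rw [hJ]; exact hA B
  obtain ⟨πu, hπu⟩ := h6_exists_gen A (j (C (X - C u))) (j (X - C (C y))) (hlin u)
  obtain ⟨π₁, hπ₁⟩ := h6_exists_gen A (j (C (X - C c₁))) (j (X - C (C η₁))) (hlin c₁)
  obtain ⟨π₂, hπ₂⟩ := h6_exists_gen A (j (C (X - C c₂))) (j (X - C (C η₂))) (hlin c₂)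
  obtain ⟨x, hx, hUx⟩ := h6_cert_one A J hJA hℓ0 _ _ _ _ _ _ _ (by rw [hJ]; exact hnz _ hdeg hcont)
    (by rw [hJ]; exact hlin u) hpow hid πu π₁ hπu hπ₁
  obtain ⟨x', hx', hUx'⟩ := h6_cert_one A J hJA hℓ0 _ _ _ _ _ _ _
    (by rw [hJ]; exact hnz _ hdeg' hcont')
    (by rw [hJ]; exact hlin u) hpow' hid' πu π₂ hπu hπ₂
  refine ⟨x / x', π₁, π₂, div_ne_zero hx hx', hπ₁, hπ₂, ?_⟩
  have := h6_un_div hUx hUx'
  have e : J (AdjoinRoot.mk (fS (RingHom.id k) f) H₁) * x ^ ℓ * πu /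
        (J (AdjoinRoot.mk (fS (RingHom.id k) f) (C (X - C u))) * π₁) /
      (J (AdjoinRoot.mk (fS (RingHom.id k) f) H₁') * x' ^ ℓ * πu /
        (J (AdjoinRoot.mk (fS (RingHom.id k) f) (C (X - C u))) * π₂)) =
      j H₁ / j H₁' * (x / x') ^ ℓ * π₂ / π₁ := by
    simp only [hJ]
    have q1 := hlin u
    have q2 := hnz _ hdeg' hcont'
    have q3 := hπu.2.1
    have q4 := hπ₁.2.1
    have q5 := hπ₂.2.1
    have q6 : x' ^ ℓ ≠ 0 := pow_ne_zero _ hx'
    rw [div_pow]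
    field_simp
  rw [e] at this
  exact this

end Pool.Agent.Helper54.SR
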