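import Pool.Agent.Helper87.SR.Roots
import Pool.Agent.Helper14.SR.Res

/-!
# SR-T5: twisting by Kummer characters
-/

set_option autoImplicit false
set_option linter.unusedVariables false
set_option linter.unusedSectionVars false
open scoped Pointwise
open Polynomial Pool.Agent.Helper54.PW

namespace Pool.Agent.Helper54.SR

section twist

theorem h6_co_mul (k L : Type) [Field k] [Field L] [Algebra (RatFunc k) L] (a b : k) :
    co k L (a * b) = co k L a * co k L b := by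
  simp [co]

theorem h6_co_inj (k L : Type) [Field k] [Field L] [Algebra (RatFunc k) L] (a b : k)
    (h : co k L a = co k L b) : a = b :=
  (algebraMap k (RatFunc k)).injective ((algebraMap (RatFunc k) L).injective h)

theorem h6_aut_co (k L : Type) [Field k] [Field L] [Algebra (RatFunc k) L]
    (σ : L ≃ₐ[RatFunc k] L) (a : k) : σ (co k L a) = co k L a := by
  rw [co, AlgEquiv.commutes]

theorem h6_pow_val_add {k : Type} [Field k] {ℓ : ℕ} [NeZero ℓ] (ζ : k) (h : ζ ^ ℓ = 1)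
    (a b : ZMod ℓ) : ζ ^ (a + b).val = ζ ^ a.val * ζ ^ b.val := by
  rw [ZMod.val_add, ← pow_add, ← pow_eq_pow_mod _ h]

variable {p : ℕ} [Fact p.Prime] {k : Type} [Field k] [IsAlgClosed k] [CharP k p]
  {F : Type} [Field F] [Algebra (RatFunc k) F] [FiniteDimensional (RatFunc k) F]
  [IsGalois (RatFunc k) F] {L : Type} [Field L] [Algebra (RatFunc k) L]
  [FiniteDimensional (RatFunc k) L] [IsGalois (RatFunc k) L]
  {L' : Type} [Field L'] [Algebra (RatFunc k) L'] [FiniteDimensional (RatFunc k) L']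
  [IsGalois (RatFunc k) L'] {G : Type} [Group G] [Finite G]

/-- SR-T5 -/
theorem twist {ℓ : ℕ} (hℓ : ℓ.Prime) (hℓp : ℓ ≠ p) (act : G →* (F ≃ₐ[RatFunc k] F))
    (i : F →ₐ[RatFunc k] L) (ρ : (L ≃ₐ[RatFunc k] L) →* G) (hρ : IsLift act i ρ) (g : F)
    (hg : g ≠ 0) (ζ : k) (hζ : IsPrimitiveRoot ζ ℓ)
    (Θ : ((F ≃ₐ[RatFunc k] F) → ZMod ℓ) → G) (hΘk : ∀ φ, act (Θ φ) = 1)
    (hΘadd : ∀ φ ψ, Θ (φ + ψ) = Θ φ * Θ ψ)
    (hΘeq : ∀ (a : G) (φ : (F ≃ₐ[RatFunc k] F) → ZMod ℓ),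
      Θ (fun q => φ ((act a)⁻¹ * q)) = a * Θ φ * a⁻¹) :
    ∃ (L' : Type) (_ : Field L') (_ : Algebra (RatFunc k) L')
      (_ : FiniteDimensional (RatFunc k) L') (_ : IsGalois (RatFunc k) L')
      (j : L →ₐ[RatFunc k] L') (r : (F ≃ₐ[RatFunc k] F) → L')
      (ρ' : (L' ≃ₐ[RatFunc k] L') →* G),
      (∀ q, r q ^ ℓ = j (i (q g))) ∧ IsLift act (j.comp i) ρ' ∧
      ∀ (σ : L' ≃ₐ[RatFunc k] L') (σ' : L ≃ₐ[RatFunc k] L)
        (φ : (F ≃ₐ[RatFunc k] F) → ZMod ℓ),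
        (∀ x, σ (j x) = j (σ' x)) → (∀ x : F, σ (j (i x)) = j (i x)) →
        (∀ q, σ (r q) = co k L' (ζ ^ (φ q).val) * r q) → ρ' σ = Θ φ * ρ σ' := by
  classical
  haveI : NeZero ℓ := ⟨hℓ.ne_zero⟩
  have hℓk : (ℓ : k) ≠ 0 := by
    intro h
    have := (CharP.cast_eq_zero_iff k p ℓ).1 h
    exact hℓp ((Nat.prime_dvd_prime_iff_eq (Fact.out : p.Prime) hℓ).1 this).symm
  have hℓK : (ℓ : RatFunc k) ≠ 0 := by
    intro h
    apply hℓk
    apply (algebraMap k (RatFunc k)).injective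
    rw [map_natCast, h, map_zero]
  obtain ⟨L', _, _, _, _, j, hj⟩ := exists_roots (E := RatFunc k) (L := L) hℓK
    (Finset.univ.image fun q : F ≃ₐ[RatFunc k] F => i (q g))
  have hr' : ∀ q : F ≃ₐ[RatFunc k] F, ∃ r : L', r ^ ℓ = j (i (q g)) := fun q =>
    hj _ (Finset.mem_image.2 ⟨q, Finset.mem_univ _, rfl⟩)
  choose r hr using hr'
  obtain ⟨res, hres, hresj⟩ := exists_res j
  have hji : ∀ a b : L, j a = j b → a = b := fun a b h => j.injective h
  have hii : ∀ a b : F, i a = i b → a = b := fun a b h => i.injective h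
  have hr0 : ∀ q, r q ≠ 0 := by
    intro q h0
    have := hr q
    rw [h0, zero_pow hℓ.ne_zero] at this
    have h1 : i (q g) = 0 := hji _ _ (by rw [← this, map_zero])
    have h2 : q g = 0 := hii _ _ (by rw [h1, map_zero])
    exact hg (q.injective (by rw [h2, map_zero]))
  have hζ' : IsPrimitiveRoot (co k L' ζ) ℓ :=
    hζ.map_of_injective (f := (algebraMap (RatFunc k) L').comp (algebraMap k (RatFunc k)))
      ((algebraMap (RatFunc k) L').comp (algebraMap k (RatFunc k))).injective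
  have hcopow : ∀ n : ℕ, co k L' (ζ ^ n) = co k L' ζ ^ n := fun n => by
    simp [co]
  -- the cocycle
  have key : ∀ (σ : L' ≃ₐ[RatFunc k] L') (q : F ≃ₐ[RatFunc k] F), ∃ e : ZMod ℓ,
      σ (r q) = co k L' (ζ ^ e.val) * r (act (ρ (res σ)) * q) := by
    intro σ q
    have h1 : (σ (r q) / r (act (ρ (res σ)) * q)) ^ ℓ = 1 := by
      rw [div_pow, ← map_pow, hr, hr, hresj, hρ, AlgEquiv.mul_apply, div_self]
      have := pow_ne_zero ℓ (hr0 (act (ρ (res σ)) * q))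
      rwa [hr, AlgEquiv.mul_apply] at this
    obtain ⟨n, hn, he⟩ := hζ'.eq_pow_of_pow_eq_one h1
    refine ⟨(n : ZMod ℓ), ?_⟩
    rw [ZMod.val_natCast_of_lt hn, hcopow, he, div_mul_cancel₀ _ (hr0 _)]
  choose E hE using key
  let φ : (L' ≃ₐ[RatFunc k] L') → (F ≃ₐ[RatFunc k] F) → ZMod ℓ :=
    fun σ q => E σ ((act (ρ (res σ)))⁻¹ * q)
  have hφ : ∀ σ q, σ (r ((act (ρ (res σ)))⁻¹ * q)) = co k L' (ζ ^ (φ σ q).val) * r q := by
    intro σ q
    have := hE σ ((act (ρ (res σ)))⁻¹ * q)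
    rwa [mul_inv_cancel_left] at this
  have huniq : ∀ (a b : ZMod ℓ) (q : F ≃ₐ[RatFunc k] F),
      co k L' (ζ ^ a.val) * r q = co k L' (ζ ^ b.val) * r q → a = b := by
    intro a b q h
    have h1 := h6_co_inj k L' _ _ (mul_right_cancel₀ (hr0 q) h)
    exact ZMod.val_injective ℓ (hζ.pow_inj (ZMod.val_lt a) (ZMod.val_lt b) h1)
  have hcomp : ∀ σ τ q, φ (σ * τ) q = φ σ q + φ τ ((act (ρ (res σ)))⁻¹ * q) := by
    intro σ τ q
    apply huniq _ _ q
    have e1 : (act (ρ (res (σ * τ))))⁻¹ * q = (act (ρ (res τ)))⁻¹ * ((act (ρ (res σ)))⁻¹ * q) := by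
      rw [map_mul, map_mul, map_mul, mul_inv_rev, mul_assoc]
    rw [← hφ, e1, AlgEquiv.mul_apply, hφ, map_mul,
      h6_aut_co, hφ, ← mul_assoc, ← h6_co_mul, ← h6_pow_val_add ζ hζ.pow_eq_one, add_comm]
  let ρ' : (L' ≃ₐ[RatFunc k] L') →* G := MonoidHom.mk' (fun σ => Θ (φ σ) * ρ (res σ)) (by
    intro σ τ
    have h1 : φ (σ * τ) = φ σ + fun q => φ τ ((act (ρ (res σ)))⁻¹ * q) := by
      funext q; exact hcomp σ τ q
    rw [h1, hΘadd, hΘeq (ρ (res σ)) (φ τ), map_mul, map_mul]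
    simp only [mul_assoc, inv_mul_cancel_left])
  have hρ' : ∀ σ, ρ' σ = Θ (φ σ) * ρ (res σ) := fun σ => rfl
  refine ⟨L', inferInstance, inferInstance, inferInstance, inferInstance, j, r, ρ', hr, ?_, ?_⟩
  · intro σ x
    rw [hρ', map_mul, hΘk, one_mul, AlgHom.comp_apply, AlgHom.comp_apply, hresj, hρ]
  · intro σ σ' ψ h1 h2 h3
    have e1 : res σ = σ' := by
      apply AlgEquiv.ext
      intro x
      apply hji
      rw [← hresj, h1]
    have e2 : act (ρ (res σ)) = 1 := by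
      apply AlgEquiv.ext
      intro x
      apply hii
      apply hji
      rw [← hρ, ← hresj, h2, AlgEquiv.one_apply]
    have e3 : φ σ = ψ := by
      funext q
      apply huniq _ _ q
      rw [← hφ, e2, inv_one, one_mul, h3]
    rw [hρ', e3, e1]

end twist

end Pool.Agent.Helper54.SR
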