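import Pool.Agent.Helper54.SR.Defs

/-!
# SR-C6: embedding problems for `ℓ`-groups
-/

set_option autoImplicit false
set_option linter.unusedVariables false
set_option linter.unusedSectionVars false
open scoped Pointwise
open Polynomial Pool.Agent.Helper54.PW

namespace Pool.Agent.Helper54.SR

section embedding

/-- a nontrivial normal subgroup of a finite `ℓ`-group contains a central element of order `ℓ` -/
theorem h6_exists_central {Γ : Type} [Group Γ] [Finite Γ] {ℓ : ℕ} (hℓ : ℓ.Prime)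
    (hΓ : IsPGroup ℓ Γ) (N : Subgroup Γ) [N.Normal] (hN : N ≠ ⊥) :
    ∃ z ∈ N, orderOf z = ℓ ∧ ∀ g, z * g = g * z := by
  haveI : Fact ℓ.Prime := ⟨hℓ⟩
  have hC : IsPGroup ℓ (ConjAct Γ) := hΓ
  have hNp : IsPGroup ℓ N := hΓ.to_subgroup N
  haveI : Nontrivial N := (Subgroup.nontrivial_iff_ne_bot N).2 hN
  obtain ⟨n, hn, hcard⟩ := hNp.nontrivial_iff_card.1 inferInstance
  have hdvd : ℓ ∣ Nat.card N := by
    rw [hcard]; exact dvd_pow_self _ (by omega)
  obtain ⟨b, hb, hb1⟩ := hC.exists_fixed_point_of_prime_dvd_card_of_fixed_point (α := N) hdvd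
    (a := 1) (by
      intro g
      exact smul_one g)
  have hbc : ∀ g : Γ, (b : Γ) * g = g * b := by
    intro g
    have h1 := hb (ConjAct.toConjAct g)
    have h2 := congrArg (fun x : N => (x : Γ)) h1
    simp only [ConjAct.Subgroup.val_conj_smul, ConjAct.toConjAct_smul] at h2
    calc (b : Γ) * g = (g * b * g⁻¹) * g := by rw [h2]
      _ = g * b := by group
  have hne : (b : Γ) ≠ 1 := fun h => hb1 (Subtype.ext h.symm)
  have hdo := hΓ.dvd_orderOf hne
  obtain ⟨m, hm⟩ := hdo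
  have hpos : 0 < orderOf (b : Γ) := orderOf_pos _
  have hm0 : m ≠ 0 := by
    rintro rfl
    rw [hm] at hpos
    simp at hpos
  refine ⟨(b : Γ) ^ m, N.pow_mem b.2 m, ?_, ?_⟩
  · rw [orderOf_pow_of_dvd hm0 ⟨ℓ, by rw [hm, mul_comm]⟩, hm]
    exact Nat.mul_div_cancel _ (by omega)
  · intro g
    exact ((show Commute (b : Γ) g from hbc g).pow_left m).eq

/-- the action on the fixed field of the kernel -/
theorem h6_act_fixed {E L₁ : Type} [Field E] [Field L₁] [Algebra E L₁] [FiniteDimensional E L₁]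
    [IsGalois E L₁] {Γ Q : Type} [Group Γ] [Group Q] (π : Γ →* Q) (hπ : Function.Surjective π)
    (ρ₁ : (L₁ ≃ₐ[E] L₁) →* Q) :
    ∃ act₁ : (ρ₁.range.comap π) →* (IntermediateField.fixedField ρ₁.ker ≃ₐ[E]
        IntermediateField.fixedField ρ₁.ker),
      Function.Surjective act₁ ∧ (∀ g, act₁ g = 1 ↔ π g = 1) ∧
      ∀ (g : ρ₁.range.comap π) (σ : L₁ ≃ₐ[E] L₁), ρ₁ σ = π g →
        ∀ x : IntermediateField.fixedField ρ₁.ker, (act₁ g x : L₁) = σ x := by
  let e1 := IsGalois.normalAutEquivQuotient ρ₁.ker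
  let e2 := QuotientGroup.quotientKerEquivRange ρ₁
  let q1 : (ρ₁.range.comap π) →* ρ₁.range := π.subgroupComap ρ₁.range
  have hq1 : Function.Surjective q1 := MonoidHom.subgroupComap_surjective_of_surjective π _ hπ
  refine ⟨(e1.toMonoidHom.comp e2.symm.toMonoidHom).comp q1, ?_, ?_, ?_⟩
  · exact (e1.surjective.comp e2.symm.surjective).comp hq1
  · intro g
    have h1 : ((e1.toMonoidHom.comp e2.symm.toMonoidHom).comp q1) g = e1 (e2.symm (q1 g)) := rfl
    rw [h1, map_eq_one_iff e1 e1.injective, map_eq_one_iff e2.symm e2.symm.injective]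
    constructor
    · intro h
      exact congrArg (fun x : ρ₁.range => (x : Q)) h
    · intro h
      exact Subtype.ext h
  · intro g σ hσ x
    have h1 : ((e1.toMonoidHom.comp e2.symm.toMonoidHom).comp q1) g = e1 (e2.symm (q1 g)) := rfl
    have h2 : e2.symm (q1 g) = (σ : (L₁ ≃ₐ[E] L₁) ⧸ ρ₁.ker) := by
      rw [MulEquiv.symm_apply_eq]
      exact Subtype.ext hσ.symm
    rw [h1, h2]
    have h3 : e1 (σ : (L₁ ≃ₐ[E] L₁) ⧸ ρ₁.ker) =
      AlgEquiv.restrictNormalHom (IntermediateField.fixedField ρ₁.ker) σ := rfl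
    rw [h3]
    exact AlgEquiv.restrictNormal_commutes σ (IntermediateField.fixedField ρ₁.ker) x

/-- SR-C6: embedding problems for `ℓ`-groups, from the central step -/
theorem h6_ell_lift_of {E : Type} [Field E] {ℓ : ℕ} (hℓ : ℓ.Prime)
    (hcs : ∀ {L : Type} [Field L] [Algebra E L] [FiniteDimensional E L] [IsGalois E L]
      {Γ : Type} [Group Γ] [Finite Γ] (hΓ : IsPGroup ℓ Γ) (act : Γ →* (L ≃ₐ[E] L))
      (hact : Function.Surjective act) (hZc : ∀ z, act z = 1 → ∀ g, z * g = g * z)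
      (hZ : Nat.card act.ker = ℓ),
      ∃ (L' : Type) (_ : Field L') (_ : Algebra E L') (_ : FiniteDimensional E L')
        (_ : IsGalois E L') (j : L →ₐ[E] L') (ρ : (L' ≃ₐ[E] L') →* Γ),
        ∀ σ x, σ (j x) = j (act (ρ σ) x))
    {Γ : Type} [Group Γ] [Finite Γ] (hΓ : IsPGroup ℓ Γ)
    {F : Type} [Field F] [Algebra E F] [FiniteDimensional E F] [IsGalois E F]
    (act : Γ →* (F ≃ₐ[E] F)) (hact : Function.Surjective act) :
    ∃ (L : Type) (_ : Field L) (_ : Algebra E L) (_ : FiniteDimensional E L)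
      (_ : IsGalois E L) (j : F →ₐ[E] L) (ρ : (L ≃ₐ[E] L) →* Γ),
      ∀ σ x, σ (j x) = j (act (ρ σ) x) := by
  classical
  -- strong induction on the order of the group
  obtain ⟨n, hn⟩ : ∃ n, Nat.card Γ = n := ⟨_, rfl⟩
  induction n using Nat.strong_induction_on generalizing Γ with
  | _ n IH =>
  by_cases hinj : act.ker = ⊥
  · -- the action is faithful
    have hbij : Function.Bijective act := ⟨(MonoidHom.ker_eq_bot_iff act).1 hinj, hact⟩
    let e := MulEquiv.ofBijective act hbij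
    refine ⟨F, inferInstance, inferInstance, inferInstance, inferInstance, AlgHom.id E F,
      e.symm.toMonoidHom, ?_⟩
    intro σ x
    have : act (e.symm.toMonoidHom σ) = σ := e.apply_symm_apply σ
    rw [this]
    rfl
  · obtain ⟨z, hzN, hzo, hzc⟩ := h6_exists_central hℓ hΓ act.ker hinj
    let Z : Subgroup Γ := Subgroup.zpowers z
    have hZc : ∀ w ∈ Z, ∀ g, w * g = g * w := by
      intro w hw g
      obtain ⟨m, rfl⟩ := Subgroup.mem_zpowers_iff.1 hw
      exact ((show Commute z g from hzc g).zpow_left m).eq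
    have hZker : ∀ w ∈ Z, act w = 1 := by
      intro w hw
      obtain ⟨m, rfl⟩ := Subgroup.mem_zpowers_iff.1 hw
      rw [map_zpow, (MonoidHom.mem_ker).1 hzN, one_zpow]
    haveI hZn : Z.Normal := ⟨fun w hw g => by
      rw [← hZc w hw g, mul_assoc, mul_inv_cancel, mul_one]; exact hw⟩
    have hZcard : Nat.card Z = ℓ := by
      rw [Nat.card_zpowers, hzo]
    let act' : Γ ⧸ Z →* (F ≃ₐ[E] F) := QuotientGroup.lift Z act hZker
    have hact' : ∀ g : Γ, act' (QuotientGroup.mk' Z g) = act g := fun g => rfl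
    have hlt : Nat.card (Γ ⧸ Z) < n := by
      have h1 := Subgroup.card_eq_card_quotient_mul_card_subgroup Z
      rw [hn, hZcard] at h1
      have h2 : 0 < Nat.card (Γ ⧸ Z) := Nat.card_pos
      have h3 := hℓ.two_le
      nlinarith
    obtain ⟨L₁, _, _, _, _, j₁, ρ₁, h₁⟩ := IH (Nat.card (Γ ⧸ Z)) hlt (hΓ.to_quotient Z) act'
      (by
        intro σ
        obtain ⟨g, hg⟩ := hact σ
        exact ⟨QuotientGroup.mk' Z g, hg⟩) rfl
    obtain ⟨act₁, hs₁, hk₁, hr₁⟩ := h6_act_fixed (QuotientGroup.mk' Z)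
      (QuotientGroup.mk'_surjective Z) ρ₁
    have hmk : ∀ g : Γ, QuotientGroup.mk' Z g = 1 ↔ g ∈ Z := fun g => by
      rw [QuotientGroup.mk'_apply]
      exact QuotientGroup.eq_one_iff g
    have hΓ₁ : IsPGroup ℓ (ρ₁.range.comap (QuotientGroup.mk' Z)) := hΓ.to_subgroup _
    have hker₁ : Nat.card act₁.ker = ℓ := by
      rw [← hZcard]
      refine Nat.card_congr ?_
      refine ⟨fun g => ⟨(g : ρ₁.range.comap (QuotientGroup.mk' Z)), ?_⟩,
        fun w => ⟨⟨w, ?_⟩, ?_⟩, ?_, ?_⟩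
      · exact (hmk _).1 ((hk₁ _).1 g.2)
      · show QuotientGroup.mk' Z w ∈ ρ₁.range
        rw [(hmk w).2 w.2]
        exact one_mem _
      · exact (hk₁ _).2 ((hmk w).2 w.2)
      · intro g
        rfl
      · intro w
        rfl
    obtain ⟨L₂, _, _, _, _, j₂, ρ₂, h₂⟩ := hcs hΓ₁ act₁ hs₁
      (by
        intro w hw g
        exact Subtype.ext (hZc w ((hmk _).1 ((hk₁ _).1 hw)) g)) hker₁
    have hfix : ∀ x : F, j₁ x ∈ IntermediateField.fixedField ρ₁.ker := by
      intro x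
      rw [IntermediateField.mem_fixedField_iff]
      intro τ hτ
      rw [h₁, (MonoidHom.mem_ker).1 hτ, map_one]
      rfl
    let jM : F →ₐ[E] IntermediateField.fixedField ρ₁.ker :=
      j₁.codRestrict (IntermediateField.fixedField ρ₁.ker).toSubalgebra hfix
    have hjM : ∀ x, ((jM x : IntermediateField.fixedField ρ₁.ker) : L₁) = j₁ x := fun x => rfl
    refine ⟨L₂, inferInstance, inferInstance, inferInstance, inferInstance, j₂.comp jM,
      (Subgroup.subtype _).comp ρ₂, ?_⟩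
    intro σ x
    rw [AlgHom.comp_apply, AlgHom.comp_apply, h₂]
    congr 1
    apply Subtype.ext
    obtain ⟨τ, hτ⟩ := (ρ₂ σ).2
    rw [hr₁ (ρ₂ σ) τ hτ, hjM, hjM, h₁, hτ]
    rfl

end embedding

end Pool.Agent.Helper54.SR
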