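import Pool.Agent.Helper6.SR.EllLiftMain
import Pool.Agent.Helper51.SR.C5

/-!
# SR-C6: embedding problems for `ℓ`-groups
-/

set_option autoImplicit false
open scoped Pointwise
open Polynomial Pool.Agent.Helper54.PW

namespace Pool.Agent.Helper54.SR

/-- SR-C6: embedding problems for `ℓ`-groups -/
theorem ell_lift {p : ℕ} [Fact p.Prime] {k : Type} [Field k] [IsAlgClosed k] [CharP k p]
    {E : Type} [Field E] [Algebra (RatFunc k) E] [FiniteDimensional (RatFunc k) E]
    {ℓ : ℕ} (hℓ : ℓ.Prime) (hℓp : ℓ ≠ p) {Γ : Type} [Group Γ] [Finite Γ] (hΓ : IsPGroup ℓ Γ)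
    {F : Type} [Field F] [Algebra E F] [FiniteDimensional E F] [IsGalois E F]
    (act : Γ →* (F ≃ₐ[E] F)) (hact : Function.Surjective act) :
    ∃ (L : Type) (_ : Field L) (_ : Algebra E L) (_ : FiniteDimensional E L)
      (_ : IsGalois E L) (j : F →ₐ[E] L) (ρ : (L ≃ₐ[E] L) →* Γ),
      ∀ σ x, σ (j x) = j (act (ρ σ) x) :=
  h6_ell_lift_of hℓ
    (fun hΓ act hact hZc hZ => central_step (k := k) (p := p) hℓ hℓp hΓ act hact hZc hZ)
    hΓ act hact

end Pool.Agent.Helper54.SR
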